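import Pool.Agent.H108.Ram.Check3

set_option autoImplicit false

/-!
# Main induction with black-box lines, direct one-sided rows and two-sided cell rows

The family `Ls` consists of lines which are won by density cells with the asymmetric two-reservoir
book theorem (`growchk3`), of lines which are won by one direct application of the one-sided norm
book theorem (`r2chk`), and of old lines (known with some constant).
-/

open Finset

namespace Pool.Agent.H108.Ram

open H110R2 W478R Pool.Agent.TH428.RM Pool.Agent.TH502.RM

theorem cert_bound5 {N B0 : ℕ} (hN : 0 < N) (hT : TBookThm2) {cs : List CC}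
    (hcs : ∀ c ∈ cs, CCOK N B0 c) (Old Ls : List (ℕ × ℕ)) (ds : List Row2) (rows : List GRow3)
    (C0 : ℝ) (hLs : Ls = rows.map GRow3.L ++ (ds.map Row2.L ++ Old))
    (hOld : ∀ k l : ℕ, BdAt (Old.map (rl N)) C0 k l)
    (hOle : Old.all (fun L => decide (L.1 ≤ L.2)) = true) (hne : rows ≠ [])
    (hds : ∀ r ∈ ds, r2chk N Ls r = true)
    (hrows : ∀ r ∈ rows, growchk3 N B0 cs Ls r = true) :
    ∃ C : ℝ, 1 ≤ C ∧ ∀ k l : ℕ, BdAt (Ls.map (rl N)) C k l := by
  have hN' : (0 : ℝ) < N := by exact_mod_cast hN
  have hle : ∀ L ∈ Ls, L.1 ≤ L.2 := by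
    intro L hL
    rw [hLs, List.mem_append, List.mem_append] at hL
    rcases hL with hL | hL | hL
    · obtain ⟨r, hr, rfl⟩ := List.mem_map.mp hL
      have h := hrows r hr
      unfold growchk3 at h
      simp only [Bool.and_eq_true, decide_eq_true_eq] at h
      exact h.1.1.1.1.1.2
    · obtain ⟨r, hr, rfl⟩ := List.mem_map.mp hL
      have h := hds r hr
      unfold r2chk at h
      simp only [Bool.and_eq_true, decide_eq_true_eq] at h
      exact h.1.1.1.1.1.2
    · have := List.all_eq_true.mp hOle L hL
      simpa using this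
  apply main_induction_C C0
  · rw [hLs]
    cases rows with
    | nil => exact absurd rfl hne
    | cons r rows => simp
  · intro L hL
    obtain ⟨L', hL', rfl⟩ := List.mem_map.mp hL
    unfold rl
    simp only
    refine ⟨by positivity, ?_⟩
    rw [div_le_div_iff_of_pos_right hN']
    exact_mod_cast hle L' hL'
  · intro L hL
    obtain ⟨L', hL', rfl⟩ := List.mem_map.mp hL
    have hL2 := hL'
    rw [hLs, List.mem_append, List.mem_append] at hL2
    rcases hL2 with h | h | h
    · obtain ⟨r, hr, rfl⟩ := List.mem_map.mp h
      exact StepC.of_stepOK C0 (growchk2_sound hN hT hcs hle (r := r.toG) hL'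
        (growchk3_imp (hrows r hr)))
    · obtain ⟨r, hr, rfl⟩ := List.mem_map.mp h
      exact StepC.of_stepOK C0 (r2chk_sound hN hle hL' (hds r hr))
    · exact StepC.of_bd hOld (List.mem_map_of_mem h)

end Pool.Agent.H108.Ram
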