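import Pool.Graph.R_seed8.TH428.RM.NC

set_option autoImplicit false

/-!
# Certificate 0, checked by the kernel
-/

namespace Pool.Agent.H108.Ram

open Pool.Agent.TH428.RM

/-- data of the certificate -/
def nc0 : NC :=
  ⟨1000000000000000000, 1024, 1000, 4096, 856935066541503616, 515304494457332416, 515304494006963456, 160, 1000, 1000, 1000, 326, 326,
  [(596312440946323584, 1, 1), (111275289376607312, 1, 2), (111270843570935952, 2, 1), (2998016504146379, 1, 3), (2997745230378162, 3, 1), (645598856969, 0, 5), (9844876314070, 1, 4), (32998956648803, 2, 3), (32997653503017, 3, 2), (9843580348397, 4, 1), (645434928905, 5, 0)]⟩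

set_option maxRecDepth 100000 in
theorem nc0_q00 : qchk (mkq nc0 false false) 22 (nc0.R * nc0.D) (nc0.R * nc0.D) (nc0.R * nc0.D) = true := by
  decide +kernel

set_option maxRecDepth 100000 in
theorem nc0_q01 : qchk (mkq nc0 false true) 22 (nc0.R * nc0.D) (nc0.R * nc0.D) (nc0.R * nc0.D) = true := by
  decide +kernel

set_option maxRecDepth 100000 in
theorem nc0_q10 : qchk (mkq nc0 true false) 22 (nc0.R * nc0.D) (nc0.R * nc0.D) (nc0.R * nc0.D) = true := by
  decide +kernel

set_option maxRecDepth 100000 in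
theorem nc0_q11 : qchk (mkq nc0 true true) 22 (nc0.R * nc0.D) (nc0.R * nc0.D) (nc0.R * nc0.D) = true := by
  decide +kernel

theorem nc0_ok : nc0.ok = true := by decide +kernel

theorem nc0_cert : Cert2 ((nc0.T1 : ℝ) / nc0.M) ((nc0.T2 : ℝ) / nc0.M) ((nc0.wR : ℝ) / nc0.wd)
    ((nc0.wB : ℝ) / nc0.wd) ((nc0.g0 : ℝ) / nc0.K) ((nc0.a1 : ℝ) / nc0.K) ((nc0.a2 : ℝ) / nc0.K) nc0.rP
    ((nc0.dl : ℝ) / nc0.K) :=
  cert_of nc0_ok nc0_q00 nc0_q01 nc0_q10 nc0_q11

end Pool.Agent.H108.Ram
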