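import Pool.Graph.R_seed8.TH428.RM.NC

set_option autoImplicit false

/-!
# Certificate 2, checked by the kernel
-/

namespace Pool.Agent.H108.Ram

open Pool.Agent.TH428.RM

/-- data of the certificate -/
def nc2 : NC :=
  ⟨1000000000000000000, 1024, 1000, 4096, 835245869963829760, 509301257874310912, 462209558531969920, 360, 1000, 966, 1036, 292, 306,
  [(539674103823132544, 1, 1), (96019070800377904, 1, 2), (93972893030778688, 2, 1), (2503889608562296, 1, 3), (4976038452976899, 3, 1), (311078802723, 0, 5), (8369495623458, 1, 4), (47128464555666, 2, 3), (81854611642386, 3, 2), (49957182514766, 4, 1), (9143381373255, 5, 0)]⟩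

set_option maxRecDepth 100000 in
theorem nc2_q00 : qchk (mkq nc2 false false) 22 (nc2.R * nc2.D) (nc2.R * nc2.D) (nc2.R * nc2.D) = true := by
  decide +kernel

set_option maxRecDepth 100000 in
theorem nc2_q01 : qchk (mkq nc2 false true) 22 (nc2.R * nc2.D) (nc2.R * nc2.D) (nc2.R * nc2.D) = true := by
  decide +kernel

set_option maxRecDepth 100000 in
theorem nc2_q10 : qchk (mkq nc2 true false) 22 (nc2.R * nc2.D) (nc2.R * nc2.D) (nc2.R * nc2.D) = true := by
  decide +kernel

set_option maxRecDepth 100000 in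
theorem nc2_q11 : qchk (mkq nc2 true true) 22 (nc2.R * nc2.D) (nc2.R * nc2.D) (nc2.R * nc2.D) = true := by
  decide +kernel

theorem nc2_ok : nc2.ok = true := by decide +kernel

theorem nc2_cert : Cert2 ((nc2.T1 : ℝ) / nc2.M) ((nc2.T2 : ℝ) / nc2.M) ((nc2.wR : ℝ) / nc2.wd)
    ((nc2.wB : ℝ) / nc2.wd) ((nc2.g0 : ℝ) / nc2.K) ((nc2.a1 : ℝ) / nc2.K) ((nc2.a2 : ℝ) / nc2.K) nc2.rP
    ((nc2.dl : ℝ) / nc2.K) :=
  cert_of nc2_ok nc2_q00 nc2_q01 nc2_q10 nc2_q11

end Pool.Agent.H108.Ram
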