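import Pool.Graph.R_seed8.TH428.RM.NC

set_option autoImplicit false

/-!
# Certificate 3, checked by the kernel
-/

namespace Pool.Agent.H108.Ram

open Pool.Agent.TH428.RM

/-- data of the certificate -/
def nc3 : NC :=
  ⟨1000000000000000000, 1024, 1000, 4096, 831626406215314560, 549067392013316864, 432666760426217408, 342, 1000, 919, 1088, 287, 321,
  [(548914146862362944, 1, 1), (97956385244608192, 1, 2), (97701358010806736, 2, 1), (2591501124137980, 1, 3), (6473171016907629, 3, 1), (375762442829, 0, 5), (8575209769419, 1, 4), (45449754064823, 2, 3), (77267854857179, 3, 2), (46668053980097, 4, 1), (8465275218193, 5, 0)]⟩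

set_option maxRecDepth 100000 in
theorem nc3_q00 : qchk (mkq nc3 false false) 22 (nc3.R * nc3.D) (nc3.R * nc3.D) (nc3.R * nc3.D) = true := by
  decide +kernel

set_option maxRecDepth 100000 in
theorem nc3_q01 : qchk (mkq nc3 false true) 22 (nc3.R * nc3.D) (nc3.R * nc3.D) (nc3.R * nc3.D) = true := by
  decide +kernel

set_option maxRecDepth 100000 in
theorem nc3_q10 : qchk (mkq nc3 true false) 22 (nc3.R * nc3.D) (nc3.R * nc3.D) (nc3.R * nc3.D) = true := by
  decide +kernel

set_option maxRecDepth 100000 in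
theorem nc3_q11 : qchk (mkq nc3 true true) 22 (nc3.R * nc3.D) (nc3.R * nc3.D) (nc3.R * nc3.D) = true := by
  decide +kernel

theorem nc3_ok : nc3.ok = true := by decide +kernel

theorem nc3_cert : Cert2 ((nc3.T1 : ℝ) / nc3.M) ((nc3.T2 : ℝ) / nc3.M) ((nc3.wR : ℝ) / nc3.wd)
    ((nc3.wB : ℝ) / nc3.wd) ((nc3.g0 : ℝ) / nc3.K) ((nc3.a1 : ℝ) / nc3.K) ((nc3.a2 : ℝ) / nc3.K) nc3.rP
    ((nc3.dl : ℝ) / nc3.K) :=
  cert_of nc3_ok nc3_q00 nc3_q01 nc3_q10 nc3_q11

end Pool.Agent.H108.Ram
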