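import Pool.Graph.R_seed8.TH428.RM.NC

set_option autoImplicit false

/-!
# Certificate 4, checked by the kernel
-/

namespace Pool.Agent.H108.Ram

open Pool.Agent.TH428.RM

/-- data of the certificate -/
def nc4 : NC :=
  ⟨1000000000000000000, 1024, 1000, 4096, 759831378316152832, 506786771362106240, 333622677190209344, 319, 1000, 835, 1197, 215, 275,
  [(421428681710671424, 1, 1), (67878165246257064, 1, 2), (65594324564462752, 2, 1), (4662804224878974, 1, 3), (1375893506613496, 3, 1), (9356795516382, 0, 5), (49924528104675, 1, 4), (74784443913684, 2, 3), (35936465164017, 3, 2), (4314890934939, 4, 1), (58423616736, 5, 0)]⟩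

set_option maxRecDepth 100000 in
theorem nc4_q00 : qchk (mkq nc4 false false) 22 (nc4.R * nc4.D) (nc4.R * nc4.D) (nc4.R * nc4.D) = true := by
  decide +kernel

set_option maxRecDepth 100000 in
theorem nc4_q01 : qchk (mkq nc4 false true) 22 (nc4.R * nc4.D) (nc4.R * nc4.D) (nc4.R * nc4.D) = true := by
  decide +kernel

set_option maxRecDepth 100000 in
theorem nc4_q10 : qchk (mkq nc4 true false) 22 (nc4.R * nc4.D) (nc4.R * nc4.D) (nc4.R * nc4.D) = true := by
  decide +kernel

set_option maxRecDepth 100000 in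
theorem nc4_q11 : qchk (mkq nc4 true true) 22 (nc4.R * nc4.D) (nc4.R * nc4.D) (nc4.R * nc4.D) = true := by
  decide +kernel

theorem nc4_ok : nc4.ok = true := by decide +kernel

theorem nc4_cert : Cert2 ((nc4.T1 : ℝ) / nc4.M) ((nc4.T2 : ℝ) / nc4.M) ((nc4.wR : ℝ) / nc4.wd)
    ((nc4.wB : ℝ) / nc4.wd) ((nc4.g0 : ℝ) / nc4.K) ((nc4.a1 : ℝ) / nc4.K) ((nc4.a2 : ℝ) / nc4.K) nc4.rP
    ((nc4.dl : ℝ) / nc4.K) :=
  cert_of nc4_ok nc4_q00 nc4_q01 nc4_q10 nc4_q11

end Pool.Agent.H108.Ram
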