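import Pool.Graph.R_seed8.TH428.RM.NC

set_option autoImplicit false

/-!
# Certificate 5, checked by the kernel
-/

namespace Pool.Agent.H108.Ram

open Pool.Agent.TH428.RM

/-- data of the certificate -/
def nc5 : NC :=
  ⟨1000000000000000000, 1024, 1000, 4096, 699829196572215552, 460063552034696000, 274867449360190656, 66, 1000, 775, 1290, 170, 241,
  [(341575761650537536, 1, 1), (49797927076895080, 1, 2), (46707956277386808, 2, 1), (1159720130955788, 1, 3), (823729709591477, 3, 1), (208480541901, 0, 5), (3270710559581, 1, 4), (11994551736556, 2, 3), (14140533402552, 3, 2), (5725341398437, 4, 1), (658722242455, 5, 0)]⟩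

set_option maxRecDepth 100000 in
theorem nc5_q00 : qchk (mkq nc5 false false) 22 (nc5.R * nc5.D) (nc5.R * nc5.D) (nc5.R * nc5.D) = true := by
  decide +kernel

set_option maxRecDepth 100000 in
theorem nc5_q01 : qchk (mkq nc5 false true) 22 (nc5.R * nc5.D) (nc5.R * nc5.D) (nc5.R * nc5.D) = true := by
  decide +kernel

set_option maxRecDepth 100000 in
theorem nc5_q10 : qchk (mkq nc5 true false) 22 (nc5.R * nc5.D) (nc5.R * nc5.D) (nc5.R * nc5.D) = true := by
  decide +kernel

set_option maxRecDepth 100000 in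
theorem nc5_q11 : qchk (mkq nc5 true true) 22 (nc5.R * nc5.D) (nc5.R * nc5.D) (nc5.R * nc5.D) = true := by
  decide +kernel

theorem nc5_ok : nc5.ok = true := by decide +kernel

theorem nc5_cert : Cert2 ((nc5.T1 : ℝ) / nc5.M) ((nc5.T2 : ℝ) / nc5.M) ((nc5.wR : ℝ) / nc5.wd)
    ((nc5.wB : ℝ) / nc5.wd) ((nc5.g0 : ℝ) / nc5.K) ((nc5.a1 : ℝ) / nc5.K) ((nc5.a2 : ℝ) / nc5.K) nc5.rP
    ((nc5.dl : ℝ) / nc5.K) :=
  cert_of nc5_ok nc5_q00 nc5_q01 nc5_q10 nc5_q11

end Pool.Agent.H108.Ram
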