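import Pool.Graph.R_seed8.TH428.RM.NC

set_option autoImplicit false

/-!
# Certificate 6, checked by the kernel
-/

namespace Pool.Agent.H108.Ram

open Pool.Agent.TH428.RM

/-- data of the certificate -/
def nc6 : NC :=
  ⟨1000000000000000000, 1024, 1000, 4096, 650512683776678912, 424914750933668416, 234343319668558080, 33, 1000, 723, 1384, 140, 219,
  [(287537622783561216, 1, 1), (39113515309271072, 1, 2), (35204232456495212, 2, 1), (864359435546298, 1, 3), (571501572291083, 3, 1), (186919470585, 0, 5), (2258845113764, 1, 4), (6693236016858, 2, 3), (6374271545277, 3, 2), (1961294944257, 4, 1), (153253467707, 5, 0)]⟩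

set_option maxRecDepth 100000 in
theorem nc6_q00 : qchk (mkq nc6 false false) 22 (nc6.R * nc6.D) (nc6.R * nc6.D) (nc6.R * nc6.D) = true := by
  decide +kernel

set_option maxRecDepth 100000 in
theorem nc6_q01 : qchk (mkq nc6 false true) 22 (nc6.R * nc6.D) (nc6.R * nc6.D) (nc6.R * nc6.D) = true := by
  decide +kernel

set_option maxRecDepth 100000 in
theorem nc6_q10 : qchk (mkq nc6 true false) 22 (nc6.R * nc6.D) (nc6.R * nc6.D) (nc6.R * nc6.D) = true := by
  decide +kernel

set_option maxRecDepth 100000 in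
theorem nc6_q11 : qchk (mkq nc6 true true) 22 (nc6.R * nc6.D) (nc6.R * nc6.D) (nc6.R * nc6.D) = true := by
  decide +kernel

theorem nc6_ok : nc6.ok = true := by decide +kernel

theorem nc6_cert : Cert2 ((nc6.T1 : ℝ) / nc6.M) ((nc6.T2 : ℝ) / nc6.M) ((nc6.wR : ℝ) / nc6.wd)
    ((nc6.wB : ℝ) / nc6.wd) ((nc6.g0 : ℝ) / nc6.K) ((nc6.a1 : ℝ) / nc6.K) ((nc6.a2 : ℝ) / nc6.K) nc6.rP
    ((nc6.dl : ℝ) / nc6.K) :=
  cert_of nc6_ok nc6_q00 nc6_q01 nc6_q10 nc6_q11

end Pool.Agent.H108.Ram
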