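import Pool.Graph.R_seed8.TH502.RM.GCheck2

set_option autoImplicit false

/-!
# The row checker with positions in the list of lines

`growchk3` is `growchk2` with the membership tests replaced by look-ups at given positions.
-/

open Finset

namespace Pool.Agent.H108.Ram

open H110R2 W478R Pool.Agent.TH428.RM Pool.Agent.TH502.RM

lemma hasL_of_mem {Ls : List (ℕ × ℕ)} {L : ℕ × ℕ} (h : L ∈ Ls) : hasL Ls L = true := by
  unfold hasL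
  rw [List.any_eq_true]
  exact ⟨L, h, by simp⟩

/-- the data of a density cell with the positions of its four lines -/
structure GCell3 where
  g : GCell
  ci : ℕ
  sw : Bool
  i1 : ℕ
  i2 : ℕ
  j1 : ℕ
  j2 : ℕ

/-- domination check with positions -/
def domchk3 (N : ℕ) (Ls : List (ℕ × ℕ)) (i1 i2 : ℕ) (L1 : ℕ × ℕ) (s1 : Bool) (L2 : ℕ × ℕ) (s2 : Bool)
    (t b A B : ℕ) : Bool :=
  look Ls i1 L1 && look Ls i2 L2 && decide (t ≤ N) &&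
  decide (b * (t * (nsw s1 L1).1 + (N - t) * (nsw s2 L2).1) ≤ A * (N * N)) &&
  decide (b * (t * (nsw s1 L1).2 + (N - t) * (nsw s2 L2).2) ≤ B * (N * N))

lemma domchk3_imp {N : ℕ} {Ls : List (ℕ × ℕ)} {i1 i2 : ℕ} {L1 : ℕ × ℕ} {s1 : Bool} {L2 : ℕ × ℕ}
    {s2 : Bool} {t b A B : ℕ} (h : domchk3 N Ls i1 i2 L1 s1 L2 s2 t b A B = true) :
    domchk N Ls L1 s1 L2 s2 t b A B = true := by
  unfold domchk3 at h
  unfold domchk
  simp only [Bool.and_eq_true] at h ⊢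
  obtain ⟨⟨⟨⟨h1, h2⟩, h3⟩, h4⟩, h5⟩ := h
  exact ⟨⟨⟨⟨hasL_of_mem (look_sound h1), hasL_of_mem (look_sound h2)⟩, h3⟩, h4⟩, h5⟩

/-- check of one density cell -/
def cellchk3 (N B0 : ℕ) (cs : List CC) (Ls : List (ℕ × ℕ)) (L lo hi : ℕ × ℕ) (top : Bool) (pl : ℕ)
    (r : GCell3) : Bool :=
  decide (0 < pl) && decide (r.g.ph + 1 < N) && pkcell N B0 cs pl ⟨r.g, r.ci, r.sw⟩ &&
  domchk3 N Ls r.i1 r.i2 r.g.L1 r.g.s1 r.g.L2 r.g.s2 r.g.t r.g.b1 r.g.A r.g.B &&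
  domchk3 N Ls r.j1 r.j2 r.g.M1 r.g.c1 r.g.M2 r.g.c2 r.g.t2 r.g.b2 r.g.A2 r.g.W &&
  slackChk N L lo hi top (((N : ℤ) + r.g.b1 + r.g.b2) * L.1 - ((r.g.A : ℤ) + r.g.A2 + 1) * N)
    (((N : ℤ) + r.g.b1 + r.g.b2) * L.2 - ((r.g.W : ℤ) + r.g.B) * N)

lemma cellchk3_imp {N B0 : ℕ} {cs : List CC} {Ls : List (ℕ × ℕ)} {L lo hi : ℕ × ℕ} {top : Bool}
    {pl : ℕ} {r : GCell3} (h : cellchk3 N B0 cs Ls L lo hi top pl r = true) :
    cellchk2 N B0 cs Ls L lo hi top pl ⟨r.g, r.ci, r.sw⟩ = true := by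
  unfold cellchk3 at h
  unfold cellchk2
  simp only [Bool.and_eq_true] at h ⊢
  obtain ⟨⟨⟨⟨⟨h1, h2⟩, h3⟩, h4⟩, h5⟩, h6⟩ := h
  exact ⟨⟨⟨⟨⟨h1, h2⟩, h3⟩, domchk3_imp h4⟩, domchk3_imp h5⟩, h6⟩

/-- check of a list of consecutive cells -/
def cellschk3 (N B0 : ℕ) (cs : List CC) (Ls : List (ℕ × ℕ)) (L lo hi : ℕ × ℕ) (top : Bool) :
    ℕ → List GCell3 → Bool
  | pl, [] => decide (1 < pl) && expL N L.1 N (pl - 1)
  | pl, r :: rs => cellchk3 N B0 cs Ls L lo hi top pl r && cellschk3 N B0 cs Ls L lo hi top r.g.ph rs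

lemma cellschk3_imp {N B0 : ℕ} {cs : List CC} {Ls : List (ℕ × ℕ)} {L lo hi : ℕ × ℕ} {top : Bool} :
    ∀ (rs : List GCell3) (pl : ℕ), cellschk3 N B0 cs Ls L lo hi top pl rs = true →
      cellschk2 N B0 cs Ls L lo hi top pl (rs.map (fun r => ⟨r.g, r.ci, r.sw⟩)) = true := by
  intro rs
  induction rs with
  | nil => intro pl h; exact h
  | cons r rs ih =>
    intro pl h
    unfold cellschk3 at h
    rw [List.map_cons]
    unfold cellschk2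
    simp only [Bool.and_eq_true] at h ⊢
    exact ⟨cellchk3_imp h.1, ih _ h.2⟩

/-- a row: a new line with its data; `ilo`, `ihi` are the positions of the neighbours -/
structure GRow3 where
  L : ℕ × ℕ
  ilo : ℕ
  lo : ℕ × ℕ
  ihi : ℕ
  hi : ℕ × ℕ
  top : Bool
  p0 : ℕ
  cells : List GCell3

/-- the row without positions -/
def GRow3.toG (r : GRow3) : GRow2 :=
  ⟨r.L, r.lo, r.hi, r.top, r.p0, r.cells.map (fun c => ⟨c.g, c.ci, c.sw⟩)⟩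

/-- check of a row -/
def growchk3 (N B0 : ℕ) (cs : List CC) (Ls : List (ℕ × ℕ)) (r : GRow3) : Bool :=
  decide (0 < r.L.1) && decide (r.L.1 ≤ r.L.2) && look Ls r.ilo r.lo &&
  (r.top || look Ls r.ihi r.hi) &&
  decide (r.p0 + 1 < N) && expL N r.L.2 N (N - r.p0 - 1) &&
  cellschk3 N B0 cs Ls r.L r.lo r.hi r.top r.p0 r.cells

theorem growchk3_imp {N B0 : ℕ} {cs : List CC} {Ls : List (ℕ × ℕ)} {r : GRow3}
    (h : growchk3 N B0 cs Ls r = true) : growchk2 N B0 cs Ls r.toG = true := by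
  unfold growchk3 at h
  unfold growchk2 GRow3.toG
  simp only [Bool.and_eq_true] at h ⊢
  obtain ⟨⟨⟨⟨⟨⟨h1, h2⟩, h3⟩, h4⟩, h5⟩, h6⟩, h7⟩ := h
  refine ⟨⟨⟨⟨⟨⟨h1, h2⟩, hasL_of_mem (look_sound h3)⟩, ?_⟩, h5⟩, h6⟩, cellschk3_imp _ _ h7⟩
  rw [Bool.or_eq_true] at h4 ⊢
  rcases h4 with h4 | h4
  · exact Or.inl h4
  · exact Or.inr (hasL_of_mem (look_sound h4))

end Pool.Agent.H108.Ram
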