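import Pool.Graph.R_seed8.TH428.RM.TBook2
import Pool.Agent.H108.Ram.Cert0
import Pool.Agent.H108.Ram.Cert1
import Pool.Agent.H108.Ram.Cert2
import Pool.Agent.H108.Ram.Cert3
import Pool.Agent.H108.Ram.Cert4
import Pool.Agent.H108.Ram.Cert5
import Pool.Agent.H108.Ram.Cert6
import Pool.Agent.H108.Ram.RowD
import Pool.Agent.H108.Ram.RowC0
import Pool.Agent.H108.Ram.RowC1
import Pool.Agent.H108.Ram.RowC2
import Pool.Agent.H108.Ram.RowC3
import Pool.Agent.H108.Ram.RowC4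
import Pool.Agent.H108.Ram.RowC5
import Pool.Agent.H108.Ram.RowC6
import Pool.Agent.H108.Ram.RowC7
import Pool.Agent.H108.Ram.RowC8
import Pool.Agent.H108.Ram.RowC9
import Pool.Agent.H108.Ram.RowC10
import Pool.Agent.H108.Ram.RowC11
import Pool.Agent.H108.Ram.RowC12
import Pool.Agent.H108.Ram.RowC13
import Pool.Agent.H108.Ram.RowC14
import Pool.Agent.H108.Ram.RowC15

set_option autoImplicit false

/-!
# The bound on two-coloured sets
-/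

namespace Pool.Agent.H108.Ram

open W478R H110R2 Pool.Agent.TH428.RM Pool.Agent.TH502.RM

lemma C8c_sixteen : C8c ((16 : ℕ) : ℝ) ≤ 28240000000 := by
  have h : Real.exp ((16 : ℝ) / 25) ≤ 1.8965 := by
    have h2 := Real.exp_bound' (x := (16 : ℝ) / 25) (by norm_num) (by norm_num) (n := 10) (by norm_num)
    refine h2.trans ?_
    simp only [Finset.sum_range_succ, Finset.sum_range_zero, Nat.factorial]
    norm_num
  unfold C8c
  push_cast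
  norm_num at h ⊢
  linarith

lemma cc0_ok : CCOK 1000000000 16 cc0 where
  hT10 := by decide
  hT1N := by decide
  hT20 := by decide
  hT2N := by decide
  hl1 := by decide +kernel
  hl2 := by decide +kernel
  hcert := by
    have h := nc0_cert
    have e1 : ((nc0.T1 : ℕ) : ℝ) / (nc0.M : ℕ) = ((cc0.T1 : ℕ) : ℝ) / ((1000000000 : ℕ) : ℝ) := by
      norm_num [nc0, cc0]
    have e2 : ((nc0.T2 : ℕ) : ℝ) / (nc0.M : ℕ) = ((cc0.T2 : ℕ) : ℝ) / ((1000000000 : ℕ) : ℝ) := by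
      norm_num [nc0, cc0]
    have e3 : ((nc0.wR : ℕ) : ℝ) / (nc0.wd : ℕ) = ((cc0.wR : ℕ) : ℝ) / ((1000000000 : ℕ) : ℝ) := by
      norm_num [nc0, cc0]
    have e4 : ((nc0.wB : ℕ) : ℝ) / (nc0.wd : ℕ) = ((cc0.wB : ℕ) : ℝ) / ((1000000000 : ℕ) : ℝ) := by
      norm_num [nc0, cc0]
    rw [e1, e2, e3, e4] at h
    refine ⟨_, _, _, _, _, h, ?_⟩
    have h1 := C8c_sixteen
    have h2 : ((cc0.G : ℕ) : ℝ) / ((1000000000 : ℕ) : ℝ) ≤
        ((nc0.g0 : ℕ) : ℝ) / (nc0.K : ℕ) - 2 * (((nc0.dl : ℕ) : ℝ) / (nc0.K : ℕ)) * 28240000000 := by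
      norm_num [nc0, cc0]
    refine h2.trans ?_
    have h3 : (0 : ℝ) ≤ 2 * (((nc0.dl : ℕ) : ℝ) / (nc0.K : ℕ)) := by positivity
    have h4 := mul_le_mul_of_nonneg_left h1 h3
    linarith

lemma cc1_ok : CCOK 1000000000 16 cc1 where
  hT10 := by decide
  hT1N := by decide
  hT20 := by decide
  hT2N := by decide
  hl1 := by decide +kernel
  hl2 := by decide +kernel
  hcert := by
    have h := nc1_cert
    have e1 : ((nc1.T1 : ℕ) : ℝ) / (nc1.M : ℕ) = ((cc1.T1 : ℕ) : ℝ) / ((1000000000 : ℕ) : ℝ) := by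
      norm_num [nc1, cc1]
    have e2 : ((nc1.T2 : ℕ) : ℝ) / (nc1.M : ℕ) = ((cc1.T2 : ℕ) : ℝ) / ((1000000000 : ℕ) : ℝ) := by
      norm_num [nc1, cc1]
    have e3 : ((nc1.wR : ℕ) : ℝ) / (nc1.wd : ℕ) = ((cc1.wR : ℕ) : ℝ) / ((1000000000 : ℕ) : ℝ) := by
      norm_num [nc1, cc1]
    have e4 : ((nc1.wB : ℕ) : ℝ) / (nc1.wd : ℕ) = ((cc1.wB : ℕ) : ℝ) / ((1000000000 : ℕ) : ℝ) := by
      norm_num [nc1, cc1]
    rw [e1, e2, e3, e4] at h
    refine ⟨_, _, _, _, _, h, ?_⟩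
    have h1 := C8c_sixteen
    have h2 : ((cc1.G : ℕ) : ℝ) / ((1000000000 : ℕ) : ℝ) ≤
        ((nc1.g0 : ℕ) : ℝ) / (nc1.K : ℕ) - 2 * (((nc1.dl : ℕ) : ℝ) / (nc1.K : ℕ)) * 28240000000 := by
      norm_num [nc1, cc1]
    refine h2.trans ?_
    have h3 : (0 : ℝ) ≤ 2 * (((nc1.dl : ℕ) : ℝ) / (nc1.K : ℕ)) := by positivity
    have h4 := mul_le_mul_of_nonneg_left h1 h3
    linarith

lemma cc2_ok : CCOK 1000000000 16 cc2 where
  hT10 := by decide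
  hT1N := by decide
  hT20 := by decide
  hT2N := by decide
  hl1 := by decide +kernel
  hl2 := by decide +kernel
  hcert := by
    have h := nc2_cert
    have e1 : ((nc2.T1 : ℕ) : ℝ) / (nc2.M : ℕ) = ((cc2.T1 : ℕ) : ℝ) / ((1000000000 : ℕ) : ℝ) := by
      norm_num [nc2, cc2]
    have e2 : ((nc2.T2 : ℕ) : ℝ) / (nc2.M : ℕ) = ((cc2.T2 : ℕ) : ℝ) / ((1000000000 : ℕ) : ℝ) := by
      norm_num [nc2, cc2]
    have e3 : ((nc2.wR : ℕ) : ℝ) / (nc2.wd : ℕ) = ((cc2.wR : ℕ) : ℝ) / ((1000000000 : ℕ) : ℝ) := by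
      norm_num [nc2, cc2]
    have e4 : ((nc2.wB : ℕ) : ℝ) / (nc2.wd : ℕ) = ((cc2.wB : ℕ) : ℝ) / ((1000000000 : ℕ) : ℝ) := by
      norm_num [nc2, cc2]
    rw [e1, e2, e3, e4] at h
    refine ⟨_, _, _, _, _, h, ?_⟩
    have h1 := C8c_sixteen
    have h2 : ((cc2.G : ℕ) : ℝ) / ((1000000000 : ℕ) : ℝ) ≤
        ((nc2.g0 : ℕ) : ℝ) / (nc2.K : ℕ) - 2 * (((nc2.dl : ℕ) : ℝ) / (nc2.K : ℕ)) * 28240000000 := by
      norm_num [nc2, cc2]
    refine h2.trans ?_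
    have h3 : (0 : ℝ) ≤ 2 * (((nc2.dl : ℕ) : ℝ) / (nc2.K : ℕ)) := by positivity
    have h4 := mul_le_mul_of_nonneg_left h1 h3
    linarith

lemma cc3_ok : CCOK 1000000000 16 cc3 where
  hT10 := by decide
  hT1N := by decide
  hT20 := by decide
  hT2N := by decide
  hl1 := by decide +kernel
  hl2 := by decide +kernel
  hcert := by
    have h := nc3_cert
    have e1 : ((nc3.T1 : ℕ) : ℝ) / (nc3.M : ℕ) = ((cc3.T1 : ℕ) : ℝ) / ((1000000000 : ℕ) : ℝ) := by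
      norm_num [nc3, cc3]
    have e2 : ((nc3.T2 : ℕ) : ℝ) / (nc3.M : ℕ) = ((cc3.T2 : ℕ) : ℝ) / ((1000000000 : ℕ) : ℝ) := by
      norm_num [nc3, cc3]
    have e3 : ((nc3.wR : ℕ) : ℝ) / (nc3.wd : ℕ) = ((cc3.wR : ℕ) : ℝ) / ((1000000000 : ℕ) : ℝ) := by
      norm_num [nc3, cc3]
    have e4 : ((nc3.wB : ℕ) : ℝ) / (nc3.wd : ℕ) = ((cc3.wB : ℕ) : ℝ) / ((1000000000 : ℕ) : ℝ) := by
      norm_num [nc3, cc3]
    rw [e1, e2, e3, e4] at h
    refine ⟨_, _, _, _, _, h, ?_⟩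
    have h1 := C8c_sixteen
    have h2 : ((cc3.G : ℕ) : ℝ) / ((1000000000 : ℕ) : ℝ) ≤
        ((nc3.g0 : ℕ) : ℝ) / (nc3.K : ℕ) - 2 * (((nc3.dl : ℕ) : ℝ) / (nc3.K : ℕ)) * 28240000000 := by
      norm_num [nc3, cc3]
    refine h2.trans ?_
    have h3 : (0 : ℝ) ≤ 2 * (((nc3.dl : ℕ) : ℝ) / (nc3.K : ℕ)) := by positivity
    have h4 := mul_le_mul_of_nonneg_left h1 h3
    linarith

lemma cc4_ok : CCOK 1000000000 16 cc4 where
  hT10 := by decide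
  hT1N := by decide
  hT20 := by decide
  hT2N := by decide
  hl1 := by decide +kernel
  hl2 := by decide +kernel
  hcert := by
    have h := nc4_cert
    have e1 : ((nc4.T1 : ℕ) : ℝ) / (nc4.M : ℕ) = ((cc4.T1 : ℕ) : ℝ) / ((1000000000 : ℕ) : ℝ) := by
      norm_num [nc4, cc4]
    have e2 : ((nc4.T2 : ℕ) : ℝ) / (nc4.M : ℕ) = ((cc4.T2 : ℕ) : ℝ) / ((1000000000 : ℕ) : ℝ) := by
      norm_num [nc4, cc4]
    have e3 : ((nc4.wR : ℕ) : ℝ) / (nc4.wd : ℕ) = ((cc4.wR : ℕ) : ℝ) / ((1000000000 : ℕ) : ℝ) := by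
      norm_num [nc4, cc4]
    have e4 : ((nc4.wB : ℕ) : ℝ) / (nc4.wd : ℕ) = ((cc4.wB : ℕ) : ℝ) / ((1000000000 : ℕ) : ℝ) := by
      norm_num [nc4, cc4]
    rw [e1, e2, e3, e4] at h
    refine ⟨_, _, _, _, _, h, ?_⟩
    have h1 := C8c_sixteen
    have h2 : ((cc4.G : ℕ) : ℝ) / ((1000000000 : ℕ) : ℝ) ≤
        ((nc4.g0 : ℕ) : ℝ) / (nc4.K : ℕ) - 2 * (((nc4.dl : ℕ) : ℝ) / (nc4.K : ℕ)) * 28240000000 := by
      norm_num [nc4, cc4]
    refine h2.trans ?_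
    have h3 : (0 : ℝ) ≤ 2 * (((nc4.dl : ℕ) : ℝ) / (nc4.K : ℕ)) := by positivity
    have h4 := mul_le_mul_of_nonneg_left h1 h3
    linarith

lemma cc5_ok : CCOK 1000000000 16 cc5 where
  hT10 := by decide
  hT1N := by decide
  hT20 := by decide
  hT2N := by decide
  hl1 := by decide +kernel
  hl2 := by decide +kernel
  hcert := by
    have h := nc5_cert
    have e1 : ((nc5.T1 : ℕ) : ℝ) / (nc5.M : ℕ) = ((cc5.T1 : ℕ) : ℝ) / ((1000000000 : ℕ) : ℝ) := by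
      norm_num [nc5, cc5]
    have e2 : ((nc5.T2 : ℕ) : ℝ) / (nc5.M : ℕ) = ((cc5.T2 : ℕ) : ℝ) / ((1000000000 : ℕ) : ℝ) := by
      norm_num [nc5, cc5]
    have e3 : ((nc5.wR : ℕ) : ℝ) / (nc5.wd : ℕ) = ((cc5.wR : ℕ) : ℝ) / ((1000000000 : ℕ) : ℝ) := by
      norm_num [nc5, cc5]
    have e4 : ((nc5.wB : ℕ) : ℝ) / (nc5.wd : ℕ) = ((cc5.wB : ℕ) : ℝ) / ((1000000000 : ℕ) : ℝ) := by
      norm_num [nc5, cc5]
    rw [e1, e2, e3, e4] at h
    refine ⟨_, _, _, _, _, h, ?_⟩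
    have h1 := C8c_sixteen
    have h2 : ((cc5.G : ℕ) : ℝ) / ((1000000000 : ℕ) : ℝ) ≤
        ((nc5.g0 : ℕ) : ℝ) / (nc5.K : ℕ) - 2 * (((nc5.dl : ℕ) : ℝ) / (nc5.K : ℕ)) * 28240000000 := by
      norm_num [nc5, cc5]
    refine h2.trans ?_
    have h3 : (0 : ℝ) ≤ 2 * (((nc5.dl : ℕ) : ℝ) / (nc5.K : ℕ)) := by positivity
    have h4 := mul_le_mul_of_nonneg_left h1 h3
    linarith

lemma cc6_ok : CCOK 1000000000 16 cc6 where
  hT10 := by decide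
  hT1N := by decide
  hT20 := by decide
  hT2N := by decide
  hl1 := by decide +kernel
  hl2 := by decide +kernel
  hcert := by
    have h := nc6_cert
    have e1 : ((nc6.T1 : ℕ) : ℝ) / (nc6.M : ℕ) = ((cc6.T1 : ℕ) : ℝ) / ((1000000000 : ℕ) : ℝ) := by
      norm_num [nc6, cc6]
    have e2 : ((nc6.T2 : ℕ) : ℝ) / (nc6.M : ℕ) = ((cc6.T2 : ℕ) : ℝ) / ((1000000000 : ℕ) : ℝ) := by
      norm_num [nc6, cc6]
    have e3 : ((nc6.wR : ℕ) : ℝ) / (nc6.wd : ℕ) = ((cc6.wR : ℕ) : ℝ) / ((1000000000 : ℕ) : ℝ) := by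
      norm_num [nc6, cc6]
    have e4 : ((nc6.wB : ℕ) : ℝ) / (nc6.wd : ℕ) = ((cc6.wB : ℕ) : ℝ) / ((1000000000 : ℕ) : ℝ) := by
      norm_num [nc6, cc6]
    rw [e1, e2, e3, e4] at h
    refine ⟨_, _, _, _, _, h, ?_⟩
    have h1 := C8c_sixteen
    have h2 : ((cc6.G : ℕ) : ℝ) / ((1000000000 : ℕ) : ℝ) ≤
        ((nc6.g0 : ℕ) : ℝ) / (nc6.K : ℕ) - 2 * (((nc6.dl : ℕ) : ℝ) / (nc6.K : ℕ)) * 28240000000 := by
      norm_num [nc6, cc6]
    refine h2.trans ?_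
    have h3 : (0 : ℝ) ≤ 2 * (((nc6.dl : ℕ) : ℝ) / (nc6.K : ℕ)) := by positivity
    have h4 := mul_le_mul_of_nonneg_left h1 h3
    linarith

lemma ccs_ok : ∀ c ∈ ccs, CCOK 1000000000 16 c := by
  intro c hc
  unfold ccs at hc
  simp only [List.mem_cons, List.not_mem_nil, or_false] at hc
  rcases hc with rfl | rfl | rfl | rfl | rfl | rfl | rfl
  exacts [cc0_ok, cc1_ok, cc2_ok, cc3_ok, cc4_ok, cc5_ok, cc6_ok]

/-- the rows -/
def rows : List GRow3 := [row0, row1, row2, row3, row4, row5, row6, row7, row8, row9, row10, row11, row12, row13, row14, row15, row16, row17, row18, row19, row20, row21, row22, row23, row24, row25, row26, row27, row28, row29, row30, row31, row32, row33, row34, row35, row36, row37, row38, row39, row40, row41, row42, row43, row44, row45, row46, row47, row48, row49, row50, row51, row52, row53, row54, row55, row56, row57, row58, row59, row60, row61]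

lemma rows_L : rows.map GRow3.L = newC := by
  decide +kernel

lemma rows_ok : ∀ r ∈ rows, growchk3 1000000000 16 ccs Ls r = true := by
  intro r hr
  unfold rows at hr
  simp only [List.mem_cons, List.not_mem_nil, or_false] at hr
  rcases hr with rfl | rfl | rfl | rfl | rfl | rfl | rfl | rfl | rfl | rfl | rfl | rfl | rfl | rfl | rfl | rfl | rfl | rfl | rfl | rfl | rfl | rfl | rfl | rfl | rfl | rfl | rfl | rfl | rfl | rfl | rfl | rfl | rfl | rfl | rfl | rfl | rfl | rfl | rfl | rfl | rfl | rfl | rfl | rfl | rfl | rfl | rfl | rfl | rfl | rfl | rfl | rfl | rfl | rfl | rfl | rfl | rfl | rfl | rfl | rfl | rfl | rfl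
  exacts [ok0, ok1, ok2, ok3, ok4, ok5, ok6, ok7, ok8, ok9, ok10, ok11, ok12, ok13, ok14, ok15, ok16, ok17, ok18, ok19, ok20, ok21, ok22, ok23, ok24, ok25, ok26, ok27, ok28, ok29, ok30, ok31, ok32, ok33, ok34, ok35, ok36, ok37, ok38, ok39, ok40, ok41, ok42, ok43, ok44, ok45, ok46, ok47, ok48, ok49, ok50, ok51, ok52, ok53, ok54, ok55, ok56, ok57, ok58, ok59, ok60, ok61]

theorem bound : ∃ C : ℝ, 1 ≤ C ∧ ∀ k l : ℕ, BdAt (Ls.map (rl 1000000000)) C k l := by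
  obtain ⟨C0, -, h0⟩ := old_bd
  refine cert_bound5 (by norm_num) tbook2 ccs_ok Old Ls ds rows C0 ?_ h0 ?_ ?_ ?_ rows_ok
  · rw [rows_L, ds_L]
    exact Ls_eq
  · unfold Old
    decide +kernel
  · unfold rows
    simp
  · intro r hr
    exact List.all_eq_true.mp ds_ok r hr

theorem mem_last : ((567277047, 567297062) : ℕ × ℕ) ∈ Ls := by
  decide +kernel

end Pool.Agent.H108.Ram
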