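import Pool.Agent.H108.Ram.Stage2

set_option autoImplicit false

/-!
# The bound `3.11 ^ sqrt (k l)`

The lines of the second induction cover the pairs `(k, l)` with `l ≤ k ≤ 10 l`; the Erdős–Szekeres
bound is enough for the others (the last part is adapted from `Pool.Agent.H38.CC.ES`).
-/

namespace Pool.Agent.H108.Ram

open H110R2

lemma quad {A B c e lo hi t : ℝ} (hB : 0 ≤ B) (h1 : lo ≤ t) (h2 : t ≤ hi) (hlt : lo < hi)
    (hlo : B * lo ^ 2 - c * lo + A ≤ -e) (hhi : B * hi ^ 2 - c * hi + A ≤ -e) :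
    B * t ^ 2 - c * t + A ≤ -e := by
  have h3 : 0 ≤ (hi - t) * (-e - (B * lo ^ 2 - c * lo + A)) := mul_nonneg (by linarith) (by linarith)
  have h4 : 0 ≤ (t - lo) * (-e - (B * hi ^ 2 - c * hi + A)) := mul_nonneg (by linarith) (by linarith)
  have h5 : 0 ≤ B * ((t - lo) * (hi - t)) * (hi - lo) :=
    mul_nonneg (mul_nonneg hB (mul_nonneg (by linarith) (by linarith))) (by linarith)
  have h6 : (hi - lo) * (-e - (B * t ^ 2 - c * t + A)) =
      (hi - t) * (-e - (B * lo ^ 2 - c * lo + A)) + (t - lo) * (-e - (B * hi ^ 2 - c * hi + A)) +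
      B * ((t - lo) * (hi - t)) * (hi - lo) := by ring
  have h7 : 0 ≤ (hi - lo) * (-e - (B * t ^ 2 - c * t + A)) := by
    rw [h6]
    linarith
  have h8 : 0 ≤ -e - (B * t ^ 2 - c * t + A) := by
    by_contra hcon
    have h9 : (hi - lo) * (-e - (B * t ^ 2 - c * t + A)) < 0 :=
      mul_neg_of_pos_of_neg (by linarith) (not_le.1 hcon)
    linarith
  linarith

lemma cover {t : ℝ} (h0 : 0.316 ≤ t) (h1 : t ≤ 1) : ∃ L ∈ Ls2,
    ((L.2 : ℕ) : ℝ) / 1000000000 * t ^ 2 - 1.13462 * t + ((L.1 : ℕ) : ℝ) / 1000000000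
      ≤ -0.000005 := by
  rcases le_total t 0.60147 with h | h
  · exact ⟨(235621666, 1223194061), by decide +kernel,
      quad (by norm_num) h0 h (by norm_num) (by norm_num) (by norm_num)⟩
  rcases le_total t 0.76675 with h' | h'
  · exact ⟨(378052088, 836708980), by decide +kernel,
      quad (by norm_num) h h' (by norm_num) (by norm_num) (by norm_num)⟩
  rcases le_total t 0.86177 with h | h
  · exact ⟨(460978524, 695663318), by decide +kernel,
      quad (by norm_num) h' h (by norm_num) (by norm_num) (by norm_num)⟩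
  rcases le_total t 0.91622 with h' | h'
  · exact ⟨(505294564, 636079529), by decide +kernel,
      quad (by norm_num) h h' (by norm_num) (by norm_num) (by norm_num)⟩
  rcases le_total t 0.94515 with h | h
  · exact ⟨(526658136, 610786805), by decide +kernel,
      quad (by norm_num) h' h (by norm_num) (by norm_num) (by norm_num)⟩
  rcases le_total t 0.96745 with h' | h'
  · exact ⟨(541847814, 593823479), by decide +kernel,
      quad (by norm_num) h h' (by norm_num) (by norm_num) (by norm_num)⟩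
  rcases le_total t 0.98161 with h | h
  · exact ⟨(553032077, 581890254), by decide +kernel,
      quad (by norm_num) h' h (by norm_num) (by norm_num) (by norm_num)⟩
  rcases le_total t 0.99393 with h' | h'
  · exact ⟨(560067003, 574593658), by decide +kernel,
      quad (by norm_num) h h' (by norm_num) (by norm_num) (by norm_num)⟩
  · exact ⟨(567277047, 567297062), by decide +kernel,
      quad (by norm_num) h' h1 (by norm_num) (by norm_num) (by norm_num)⟩

lemma log_eleven : Real.log 11 ≤ 2.4 := by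
  rw [Real.log_le_iff_le_exp (by norm_num)]
  have h1 : (2.718 : ℝ) ≤ Real.exp 1 := by
    have := Real.exp_one_gt_d9
    linarith
  have h2 : (1.4917 : ℝ) ≤ Real.exp 0.4 := by
    have := Real.sum_le_exp_of_nonneg (x := (0.4 : ℝ)) (by norm_num) 5
    simp only [Finset.sum_range_succ, Finset.sum_range_zero, Nat.factorial] at this
    norm_num at this
    linarith
  have h3 : Real.exp 2.4 = Real.exp 1 ^ 2 * Real.exp 0.4 := by
    rw [← Real.exp_nat_mul, ← Real.exp_add]
    norm_num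
  rw [h3]
  have h4 : (2.718 : ℝ) ^ 2 ≤ Real.exp 1 ^ 2 := pow_le_pow_left₀ (by norm_num) h1 2
  calc (11 : ℝ) ≤ 2.718 ^ 2 * 1.4917 := by norm_num
    _ ≤ Real.exp 1 ^ 2 * Real.exp 0.4 := by
        apply mul_le_mul h4 h2 (by norm_num) (by positivity)

lemma es_log {Y : ℝ} (hY : 10 ≤ Y) : 1 + Real.log (1 + Y) ≤ 1.08 * Real.sqrt Y := by
  obtain ⟨s, hs⟩ : ∃ s, s = Real.sqrt (Y / 10) := ⟨_, rfl⟩
  have hs1 : 1 ≤ s := by
    rw [hs]
    apply Real.le_sqrt_of_sq_le
    rw [le_div_iff₀ (by norm_num)]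
    linarith
  have hs0 : 0 < s := by linarith
  have hY2 : Y = 10 * s ^ 2 := by
    rw [hs, Real.sq_sqrt (by positivity)]
    ring
  have hsY : 3.162 * s ≤ Real.sqrt Y := by
    apply Real.le_sqrt_of_sq_le
    rw [hY2]
    nlinarith
  have h2 : Real.log (1 + Y) ≤ Real.log 11 + 2 * Real.log s := by
    have h3 : Real.log 11 + 2 * Real.log s = Real.log (11 * s ^ 2) := by
      rw [Real.log_mul (by norm_num) (by positivity), Real.log_pow]
      norm_num
    rw [h3]
    apply Real.log_le_log (by linarith)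
    rw [hY2]
    nlinarith
  have h4 : Real.log s ≤ s - 1 := Real.log_le_sub_one_of_pos hs0
  have h5 := log_eleven
  nlinarith

/-- Unbalanced pairs. -/
lemma es_ten {k l : ℕ} (hl : 1 ≤ l) (hkl : 10 * l ≤ k) {V : Type} [DecidableEq V]
    (G : SimpleGraph V) (Z : Finset V) (h1 : NoCl G k Z) (h2 : NoCl Gᶜ l Z) :
    (Z.card : ℝ) + 1 ≤ Real.exp (1.08 * Real.sqrt ((k : ℝ) * l)) := by
  have hk : 1 ≤ k := by omega
  have hk0 : (0 : ℝ) < k := by exact_mod_cast hk
  have hl0 : (0 : ℝ) < l := by exact_mod_cast hl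
  have hx : (0 : ℝ) < k / (k + l) := by positivity
  have hy : (0 : ℝ) < l / (k + l) := by positivity
  have hxy : (k : ℝ) / (k + l) + l / (k + l) ≤ 1 := by
    rw [← add_div, div_self (by positivity)]
  have h := es_bound G hx hy hxy Z.card Z le_rfl k l h1 h2
  obtain ⟨Y, hYd⟩ : ∃ Y : ℝ, Y = k / l := ⟨_, rfl⟩
  have hY : 10 ≤ Y := by
    rw [hYd, le_div_iff₀ hl0]
    exact_mod_cast hkl
  have hkY : (k : ℝ) = l * Y := by
    rw [hYd]
    field_simp
  have e1 : (Real.exp l)⁻¹ ≤ ((k : ℝ) / (k + l)) ^ k := by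
    have h3 : (1 + (l : ℝ) / k) ≤ Real.exp (l / k) := by
      have := Real.add_one_le_exp ((l : ℝ) / k)
      linarith
    have h4 : (1 + (l : ℝ) / k) ^ k ≤ Real.exp l := by
      calc (1 + (l : ℝ) / k) ^ k ≤ Real.exp (l / k) ^ k := pow_le_pow_left₀ (by positivity) h3 k
        _ = Real.exp l := by
            rw [← Real.exp_nat_mul]
            congr 1
            field_simp
    have h5 : (k : ℝ) / (k + l) = (1 + (l : ℝ) / k)⁻¹ := by
      field_simp
    rw [h5, inv_pow]
    exact inv_anti₀ (by positivity) h4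
  have e2 : ((l : ℝ) / (k + l)) ^ l = (Real.exp (l * Real.log (1 + Y)))⁻¹ := by
    have h5 : (l : ℝ) / (k + l) = (1 + Y)⁻¹ := by
      have hY1 : (0 : ℝ) < 1 + Y := by linarith
      rw [inv_eq_one_div, div_eq_div_iff (by positivity) hY1.ne', hkY]
      ring
    rw [h5, inv_pow, Real.exp_nat_mul, Real.exp_log (by linarith)]
  have e3 : Real.sqrt ((k : ℝ) * l) = l * Real.sqrt Y := by
    have : (k : ℝ) * l = l ^ 2 * Y := by rw [hkY]; ring
    rw [this, Real.sqrt_mul (by positivity), Real.sqrt_sq hl0.le]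
  have e4 : (l : ℝ) + l * Real.log (1 + Y) ≤ 1.08 * Real.sqrt ((k : ℝ) * l) := by
    rw [e3]
    have := mul_le_mul_of_nonneg_left (es_log hY) hl0.le
    linarith
  refine le_trans ?_ (Real.exp_le_exp.2 e4)
  rw [Real.exp_add]
  have h6 : ((Z.card : ℝ) + 1) * (Real.exp l)⁻¹ * (Real.exp (l * Real.log (1 + Y)))⁻¹ ≤ 1 := by
    refine le_trans ?_ h
    rw [← e2]
    exact mul_le_mul_of_nonneg_right (mul_le_mul_of_nonneg_left e1
      (add_nonneg (Nat.cast_nonneg _) zero_le_one)) (pow_nonneg hy.le _)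
  rw [mul_assoc, ← mul_inv, ← div_eq_mul_inv, div_le_one (by positivity)] at h6
  exact h6

lemma log_gt : 1.13462 < Real.log 3.11 := by
  rw [Real.lt_log_iff_exp_lt (by norm_num)]
  have h1 := Real.exp_one_lt_d9
  have h2 := Real.exp_bound' (x := 0.13462) (by norm_num) (by norm_num) (n := 10)
    (by norm_num)
  have h3 : Real.exp (1.13462 : ℝ) = Real.exp 1 * Real.exp 0.13462 := by
    rw [← Real.exp_add]
    norm_num
  have h4 : Real.exp (0.13462 : ℝ) < 1.144103 := by
    refine lt_of_le_of_lt h2 ?_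
    simp only [Finset.sum_range_succ, Finset.sum_range_zero, Nat.factorial]
    norm_num
  rw [h3]
  calc Real.exp 1 * Real.exp 0.13462 ≤ 2.7182818286 * 1.144103 :=
        mul_le_mul h1.le h4.le (Real.exp_pos _).le (by norm_num)
    _ < 3.11 := by norm_num

/-- All pairs `l ≤ k` with `k` large. -/
theorem off : ∃ K : ℕ, ∀ k l : ℕ, 1 ≤ l → l ≤ k → K ≤ k → ∀ (V : Type) [DecidableEq V]
    (G : SimpleGraph V) (Z : Finset V),
      ((NoCl G k Z → NoCl Gᶜ l Z → (Z.card : ℝ) + 1 < (3.11 : ℝ) ^ Real.sqrt ((k : ℝ) * l)) ∧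
       (NoCl G l Z → NoCl Gᶜ k Z → (Z.card : ℝ) + 1 < (3.11 : ℝ) ^ Real.sqrt ((k : ℝ) * l))) := by
  obtain ⟨C, hC, hB⟩ := bound2
  refine ⟨⌈Real.log (2 * C) * 200000⌉₊ + 10, ?_⟩
  intro k l hl hlk hk V _ G Z
  have hk0 : (0 : ℝ) < k := by
    have : 0 < k := by omega
    exact_mod_cast this
  have hl0 : (0 : ℝ) < l := by exact_mod_cast hl
  have hlog := log_gt
  have hs0 : 0 < Real.sqrt ((k : ℝ) * l) := Real.sqrt_pos.2 (by positivity)
  have hx : (3.11 : ℝ) ^ Real.sqrt ((k : ℝ) * l) =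
      Real.exp (Real.log 3.11 * Real.sqrt ((k : ℝ) * l)) := Real.rpow_def_of_pos (by norm_num) _
  have hx2 : Real.exp (1.13462 * Real.sqrt ((k : ℝ) * l)) <
      (3.11 : ℝ) ^ Real.sqrt ((k : ℝ) * l) := by
    rw [hx]
    exact Real.exp_lt_exp.2 (mul_lt_mul_of_pos_right hlog hs0)
  rcases le_total (10 * l) k with hu | hu
  · have hx3 : Real.exp (1.08 * Real.sqrt ((k : ℝ) * l)) ≤
        Real.exp (1.13462 * Real.sqrt ((k : ℝ) * l)) :=
      Real.exp_le_exp.2 (mul_le_mul_of_nonneg_right (by norm_num) hs0.le)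
    refine ⟨fun h1 h2 => ?_, fun h1 h2 => ?_⟩
    · exact lt_of_le_of_lt ((es_ten hl hu G Z h1 h2).trans hx3) hx2
    · refine lt_of_le_of_lt ((es_ten hl hu Gᶜ Z h2 ?_).trans hx3) hx2
      rwa [compl_compl]
  -- the balanced pairs
  obtain ⟨t, ht⟩ : ∃ t, t = Real.sqrt (l : ℝ) / Real.sqrt (k : ℝ) := ⟨_, rfl⟩
  have hsk : 0 < Real.sqrt (k : ℝ) := Real.sqrt_pos.2 hk0
  have hsl : 0 < Real.sqrt (l : ℝ) := Real.sqrt_pos.2 hl0
  have hsk2 : Real.sqrt (k : ℝ) ^ 2 = k := Real.sq_sqrt hk0.le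
  have hsl2 : Real.sqrt (l : ℝ) ^ 2 = l := Real.sq_sqrt hl0.le
  have htl : Real.sqrt (l : ℝ) = t * Real.sqrt (k : ℝ) := by
    rw [ht]
    field_simp
  have ht1 : t ≤ 1 := by
    rw [ht, div_le_one hsk]
    exact Real.sqrt_le_sqrt (by exact_mod_cast hlk)
  have ht0 : 0 < t := by rw [ht]; positivity
  have htk : (l : ℝ) = t ^ 2 * k := by
    rw [← hsl2, ← hsk2, htl]
    ring
  have hst : Real.sqrt ((k : ℝ) * l) = t * k := by
    rw [Real.sqrt_mul hk0.le, htl]
    calc Real.sqrt (k : ℝ) * (t * Real.sqrt (k : ℝ)) = t * Real.sqrt (k : ℝ) ^ 2 := by ring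
      _ = t * k := by rw [hsk2]
  have ht2 : 0.316 ≤ t := by
    have h1 : (k : ℝ) ≤ 10 * l := by exact_mod_cast hu
    have h2 : (1 : ℝ) ≤ 10 * t ^ 2 := by
      rw [htk] at h1
      have h3 : (1 : ℝ) * k ≤ (10 * t ^ 2) * k := by linarith
      exact le_of_mul_le_mul_right h3 hk0
    nlinarith
  obtain ⟨L, hL, hLt⟩ := cover ht2 ht1
  have hmem := List.mem_map_of_mem (f := rl 1000000000) hL
  have hlv : lv (rl 1000000000 L) k l ≤ 1.13462 * Real.sqrt ((k : ℝ) * l) - 0.000005 * k := by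
    have h1 : lv (rl 1000000000 L) k l =
        (((L.2 : ℕ) : ℝ) / 1000000000 * t ^ 2 + ((L.1 : ℕ) : ℝ) / 1000000000) * k := by
      unfold lv rl
      simp only
      rw [htk]
      push_cast
      ring
    rw [h1, hst]
    have h2 := mul_le_mul_of_nonneg_right hLt hk0.le
    linarith
  have hCK : C * Real.exp (-(0.000005 * k)) ≤ 1 / 2 := by
    have h1 : Real.log (2 * C) ≤ 0.000005 * k := by
      have h2 : Real.log (2 * C) * 200000 ≤ ((⌈Real.log (2 * C) * 200000⌉₊ : ℕ) : ℝ) :=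
        Nat.le_ceil _
      have h3 : ((⌈Real.log (2 * C) * 200000⌉₊ : ℕ) : ℝ) ≤ k := by
        exact_mod_cast (by omega : ⌈Real.log (2 * C) * 200000⌉₊ ≤ k)
      linarith
    have h4 : Real.exp (-(0.000005 * k)) ≤ (2 * C)⁻¹ := by
      rw [Real.exp_neg]
      apply inv_anti₀ (by positivity)
      calc 2 * C = Real.exp (Real.log (2 * C)) := (Real.exp_log (by positivity)).symm
        _ ≤ Real.exp (0.000005 * k) := Real.exp_le_exp.2 h1
    calc C * Real.exp (-(0.000005 * k)) ≤ C * (2 * C)⁻¹ :=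
          mul_le_mul_of_nonneg_left h4 (by linarith)
      _ = 1 / 2 := by field_simp
  have hbig : 2 < Real.exp (1.13462 * Real.sqrt ((k : ℝ) * l)) := by
    have h1 : (10 : ℝ) ≤ k := by exact_mod_cast (by omega : 10 ≤ k)
    have h2 : (3.16 : ℝ) ≤ Real.sqrt ((k : ℝ) * l) := by
      rw [hst]
      nlinarith
    have h3 := Real.add_one_le_exp (1.13462 * Real.sqrt ((k : ℝ) * l))
    linarith
  have hfin : ∀ x : ℝ, x ≤ C * Real.exp (lv (rl 1000000000 L) k l) →
      x + 1 < (3.11 : ℝ) ^ Real.sqrt ((k : ℝ) * l) := by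
    intro x hxC
    have h1 : Real.exp (lv (rl 1000000000 L) k l) ≤
        Real.exp (-(0.000005 * k)) * Real.exp (1.13462 * Real.sqrt ((k : ℝ) * l)) := by
      rw [← Real.exp_add]
      apply Real.exp_le_exp.2
      linarith
    have h2 : C * Real.exp (lv (rl 1000000000 L) k l) ≤
        1 / 2 * Real.exp (1.13462 * Real.sqrt ((k : ℝ) * l)) := by
      calc C * Real.exp (lv (rl 1000000000 L) k l) ≤
            C * (Real.exp (-(0.000005 * k)) * Real.exp (1.13462 * Real.sqrt ((k : ℝ) * l))) :=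
            mul_le_mul_of_nonneg_left h1 (by linarith)
        _ = (C * Real.exp (-(0.000005 * k))) * Real.exp (1.13462 * Real.sqrt ((k : ℝ) * l)) := by
            ring
        _ ≤ 1 / 2 * Real.exp (1.13462 * Real.sqrt ((k : ℝ) * l)) :=
            mul_le_mul_of_nonneg_right hCK (Real.exp_pos _).le
    linarith
  refine ⟨fun h1 h2 => ?_, fun h1 h2 => ?_⟩
  · exact hfin _ (hB k l V G Z h1 h2 _ hmem).1
  · exact hfin _ (hB l k V G Z h1 h2 _ hmem).2

end Pool.Agent.H108.Ram
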